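import Pool.Agent.H54.PQ.Main
import Pool.Agent.H54.AX.Rd
import Pool.Agent.H76.GT.Fld
import Pool.Agent.H76.GU.PTL

/-!
# Automorphisms of the plane over commutative rings, from the transfer criterion
-/

set_option autoImplicit false

namespace Pool.Agent.H54.PQ

open MvPolynomial Pool.Agent.H98.FJ Pool.Agent.H54.AX Pool.Agent.H76.GT

variable {C : (G : Type) → [Group G] → Prop}

/-- the theorem for one tree -/
theorem pt1 (hC : Inherits C) (hT : Transfer C) : PT1 C := by
  intro G V _ _ _ _ T hfg hp ht hst hR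
  exact pt_loc hC hT hfg one_pos (fun _ : Fin 1 => T) (fun _ => ht) (fun _ => hst) hR

/-- groups which map to a group acting acylindrically on a tree -/
theorem acylExt_of_transfer (hC : Inherits C) (hT : Transfer C) : Pool.Agent.H76.VC.AcylExt C :=
  acylExt hC (pt1 hC hT)

/-- groups which act acylindrically on a tree -/
theorem acylTrees_of_transfer (hC : Inherits C) (hT : Transfer C) : Pool.Agent.H54.PA.AcylTrees C :=
  acylTrees hC (pt1 hC hT)

theorem plane_fin (hC : Inherits C) (hE : Extension C) (hT : Transfer C)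
    (hS : ∀ (G : Type) [Group G], Group.IsSolvable G → C G) (hQ : ∀ n : ℕ, C (Matrix.GeneralLinearGroup (Fin n) ℚ))
    (A : Type) [CommRing A] (ht : ∀ (n : ℤ) (a : A), n ≠ 0 → n • a = 0 → IsNilpotent a) :
    C (MvPolynomial (Fin 2) A ≃ₐ[A] MvPolynomial (Fin 2) A) :=
  plane hC hE (acylTrees_of_transfer hC hT) hS (fun F _ _ => gl_field hC hE hT hS hQ F) A
    (fun n a hn ha => ht n a hn (by rw [zsmul_eq_mul]; exact ha))

end Pool.Agent.H54.PQ
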