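import Pool.Agent.H54.PQ.Rb

/-!
# The automorphisms which are trivial modulo a nilpotent ideal form a solvable group
-/

set_option autoImplicit false

namespace Pool.Agent.H54.PQ

open MvPolynomial

open scoped commutatorElement

variable {A : Type} [CommRing A]

/-- the polynomials with coefficients in the ideal `I` -/
noncomputable abbrev PI (I : Ideal A) : Ideal (Q A) := I.map (MvPolynomial.C : A →+* Q A)

/-- the automorphisms which are trivial modulo `I` -/
noncomputable def Cg (I : Ideal A) : Subgroup (AM A) where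
  carrier := {ψ | ∀ p, ψ p - p ∈ PI I}
  one_mem' := by
    intro p
    have e : (1 : AM A) p - p = 0 := sub_self p
    rw [e]
    exact zero_mem _
  mul_mem' := by
    intro a b ha hb p
    have e : (a * b) p - p = (a (b p) - b p) + (b p - p) := by
      rw [sub_add_sub_cancel]
      rfl
    rw [e]
    exact add_mem (ha _) (hb _)
  inv_mem' := by
    intro a ha p
    have h1 := ha (a⁻¹ p)
    have h2 : a (a⁻¹ p) = p := a.apply_symm_apply p
    rw [h2] at h1
    rw [← neg_sub]
    exact neg_mem h1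

theorem mem_Cg {I : Ideal A} {ψ : AM A} : ψ ∈ Cg I ↔ ∀ p, ψ p - p ∈ PI I := Iff.rfl

/-- it is enough to look at the variables -/
theorem mem_Cg' {I : Ideal A} {ψ : AM A} (h : ∀ i, ψ (X i) - X i ∈ PI I) : ψ ∈ Cg I := by
  intro p
  induction p using MvPolynomial.induction_on with
  | C a =>
    have h1 : ψ (C a) = C a := ψ.commutes a
    rw [h1, sub_self]
    exact zero_mem _
  | add p q hp hq =>
    have e : ψ (p + q) - (p + q) = (ψ p - p) + (ψ q - q) := by
      rw [map_add]
      ring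
    rw [e]
    exact add_mem hp hq
  | mul_X p i hp =>
    have e : ψ (p * X i) - p * X i = (ψ p - p) * ψ (X i) + p * (ψ (X i) - X i) := by
      rw [map_mul]
      ring
    rw [e]
    exact add_mem (Ideal.mul_mem_right _ _ hp) (Ideal.mul_mem_left _ _ (h i))

theorem au_PI (ψ : AM A) (J : Ideal A) {q : Q A} (hq : q ∈ PI J) : ψ q ∈ PI J := by
  refine Submodule.span_induction (p := fun q _ => ψ q ∈ PI J) ?_ ?_ ?_ ?_ hq
  · rintro _ ⟨j, hj, rfl⟩
    have h1 : ψ (C j) = C j := ψ.commutes j
    rw [h1]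
    exact Ideal.mem_map_of_mem _ hj
  · rw [map_zero]
    exact zero_mem _
  · intro x y _ _ hx hy
    rw [map_add]
    exact add_mem hx hy
  · intro a x _ hx
    rw [smul_eq_mul, map_mul]
    exact Ideal.mul_mem_left _ _ hx

theorem cg_PI {I : Ideal A} {ψ : AM A} (h : ψ ∈ Cg I) (J : Ideal A) {q : Q A} (hq : q ∈ PI J) :
    ψ q - q ∈ PI (I * J) := by
  have hIJ : PI I * PI J = PI (I * J) := (Ideal.map_mul _ I J).symm
  refine Submodule.span_induction (p := fun q _ => ψ q - q ∈ PI (I * J)) ?_ ?_ ?_ ?_ hq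
  · rintro _ ⟨j, hj, rfl⟩
    have h1 : ψ (C j) = C j := ψ.commutes j
    rw [h1, sub_self]
    exact zero_mem _
  · rw [map_zero, sub_self]
    exact zero_mem _
  · intro x y _ _ hx hy
    have e : ψ (x + y) - (x + y) = (ψ x - x) + (ψ y - y) := by
      rw [map_add]
      ring
    rw [e]
    exact add_mem hx hy
  · intro a x hxm hx
    have e : ψ (a • x) - a • x = (ψ a - a) * ψ x + a * (ψ x - x) := by
      rw [smul_eq_mul, map_mul]
      ring
    rw [e]
    refine add_mem ?_ (Ideal.mul_mem_left _ _ hx)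
    rw [← hIJ]
    exact Ideal.mul_mem_mul (h a) (au_PI ψ J hxm)

theorem cg_comm {I : Ideal A} {a b : AM A} (ha : a ∈ Cg I) (hb : b ∈ Cg I) : ⁅a, b⁆ ∈ Cg (I * I) := by
  intro p
  obtain ⟨q, rfl⟩ : ∃ q, p = b (a q) := ⟨a⁻¹ (b⁻¹ p), by
    have h1 : a (a⁻¹ (b⁻¹ p)) = b⁻¹ p := a.apply_symm_apply _
    rw [h1]
    exact (b.apply_symm_apply p).symm⟩
  have e1 : ⁅a, b⁆ (b (a q)) = a (b q) := by
    have e2 : ⁅a, b⁆ * (b * a) = a * b := by
      rw [commutatorElement_def]
      group
    have e3 := congrArg (fun φ : AM A => φ q) e2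
    exact e3
  rw [e1]
  have e4 : a (b q) - b (a q) = (a (b q - q) - (b q - q)) - (b (a q - q) - (a q - q)) := by
    rw [map_sub, map_sub]
    ring
  rw [e4]
  exact sub_mem (cg_PI ha I (hb q)) (cg_PI hb I (ha q))

theorem cg_solv {I : Ideal A} (hI : IsNilpotent I) : Group.IsSolvable (Cg I) := by
  obtain ⟨k, hk⟩ := hI
  have h : ∀ m : ℕ, ∀ g ∈ derivedSeries (Cg I) m, (g : AM A) ∈ Cg (I ^ 2 ^ m) := by
    intro m
    induction m with
    | zero =>
      intro g _
      rw [pow_zero, pow_one]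
      exact g.2
    | succ m ih =>
      have h1 : derivedSeries (Cg I) (m + 1) ≤ (Cg (I ^ 2 ^ (m + 1))).comap (Cg I).subtype := by
        rw [derivedSeries_succ, Subgroup.commutator_le]
        intro a ha b hb
        rw [Subgroup.mem_comap]
        have e : I ^ 2 ^ (m + 1) = I ^ 2 ^ m * I ^ 2 ^ m := by
          rw [pow_succ 2 m, mul_two, pow_add]
        rw [e]
        exact cg_comm (ih a ha) (ih b hb)
      intro g hg
      exact h1 hg
  refine ⟨k, ?_⟩
  rw [eq_bot_iff]
  intro g hg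
  have h2 := h k g hg
  have h3 : I ^ 2 ^ k = ⊥ := by
    have h4 : k ≤ 2 ^ k := Nat.lt_two_pow_self.le
    rw [eq_bot_iff]
    refine (Ideal.pow_le_pow_right h4).trans ?_
    rw [hk]
    exact le_rfl
  rw [h3] at h2
  rw [Subgroup.mem_bot]
  apply Subtype.ext
  apply AlgEquiv.ext
  intro p
  have h5 := h2 p
  rw [PI, Ideal.map_bot, Ideal.mem_bot, sub_eq_zero] at h5
  exact h5

end Pool.Agent.H54.PQ
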