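import Pool.Agent.H54.PQ.Ring
import Pool.Agent.H54.PA.Main2

/-!
# Automorphisms of the plane over commutative rings in which all torsion elements are nilpotent
-/

set_option autoImplicit false

namespace Pool.Agent.H54.PQ

open MvPolynomial Pool.Agent.H98.FJ Pool.Agent.H54.PA

variable {C : (G : Type) → [Group G] → Prop}

/-- all commutative rings in which the torsion elements are nilpotent -/
theorem plane (hC : Inherits C) (hE : Extension C) (hT : AcylTrees C)
    (hS : ∀ (G : Type) [Group G], Group.IsSolvable G → C G)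
    (hGL : ∀ (F : Type) [Field F] [CharZero F], C (Matrix.GeneralLinearGroup (Fin 2) F)) (R : Type) [CommRing R]
    (ht : ∀ (n : ℤ) (a : R), n ≠ 0 → (n : R) * a = 0 → IsNilpotent a) :
    C (MvPolynomial (Fin 2) R ≃ₐ[R] MvPolynomial (Fin 2) R) :=
  am_ring hC hE hS (fun F _ _ => (pid hC hE hT hS F).2 (hGL F)) R ht

end Pool.Agent.H54.PQ
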