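import Mathlib

/-!
# Base change of polynomial automorphisms along ring homomorphisms
-/

set_option autoImplicit false

namespace Pool.Agent.H54.PQ

open MvPolynomial

/-- polynomials in two variables -/
abbrev Q (A : Type) [CommRing A] : Type := MvPolynomial (Fin 2) A

/-- the automorphisms of the `A`-algebra `A[x, y]` -/
abbrev AM (A : Type) [CommRing A] : Type := Q A ≃ₐ[A] Q A

section

variable {A B : Type} [CommRing A] [CommRing B]

theorem hom_ext {φ φ' : Q A →ₐ[A] Q A} (h : ∀ i, φ (X i) = φ' (X i)) : φ = φ' := MvPolynomial.algHom_ext h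

theorem am_ext {φ φ' : AM A} (h : ∀ i, φ (X i) = φ' (X i)) : φ = φ' := by
  have h4 : (φ : Q A →ₐ[A] Q A) = (φ' : Q A →ₐ[A] Q A) := MvPolynomial.algHom_ext h
  apply AlgEquiv.ext
  intro p
  exact DFunLike.congr_fun h4 p

/-- base change of an endomorphism -/
noncomputable def bh (f : A →+* B) (ψ : Q A →ₐ[A] Q A) : Q B →ₐ[B] Q B :=
  aeval fun i => MvPolynomial.map f (ψ (X i))

theorem bh_X (f : A →+* B) (ψ : Q A →ₐ[A] Q A) (i : Fin 2) : bh f ψ (X i) = MvPolynomial.map f (ψ (X i)) :=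
  aeval_X _ _

theorem bh_map (f : A →+* B) (ψ : Q A →ₐ[A] Q A) (p : Q A) :
    bh f ψ (MvPolynomial.map f p) = MvPolynomial.map f (ψ p) := by
  induction p using MvPolynomial.induction_on with
  | C a =>
    have h1 : ψ (C a) = C a := ψ.commutes a
    rw [h1, MvPolynomial.map_C]
    exact (bh f ψ).commutes _
  | add p q hp hq =>
    rw [map_add, map_add, hp, hq, map_add, map_add]
  | mul_X p i hp =>
    rw [map_mul, map_mul, hp, MvPolynomial.map_X, bh_X, map_mul, map_mul]

theorem bh_comp (f : A →+* B) (ψ ψ' : Q A →ₐ[A] Q A) : bh f (ψ.comp ψ') = (bh f ψ).comp (bh f ψ') := by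
  apply MvPolynomial.algHom_ext
  intro i
  rw [AlgHom.comp_apply, bh_X, bh_X, bh_map]
  rfl

theorem bh_id (f : A →+* B) : bh f (AlgHom.id A (Q A)) = AlgHom.id B (Q B) := by
  apply MvPolynomial.algHom_ext
  intro i
  rw [bh_X]
  exact MvPolynomial.map_X _ _

/-- base change of an automorphism -/
noncomputable def ba (f : A →+* B) (ψ : AM A) : AM B :=
  AlgEquiv.ofAlgHom (bh f (ψ : Q A →ₐ[A] Q A)) (bh f (ψ.symm : Q A →ₐ[A] Q A))
    (by rw [← bh_comp, AlgEquiv.comp_symm, bh_id])
    (by rw [← bh_comp, AlgEquiv.symm_comp, bh_id])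

theorem ba_map (f : A →+* B) (ψ : AM A) (p : Q A) :
    ba f ψ (MvPolynomial.map f p) = MvPolynomial.map f (ψ p) := bh_map f (ψ : Q A →ₐ[A] Q A) p

theorem ba_X (f : A →+* B) (ψ : AM A) (i : Fin 2) : ba f ψ (X i) = MvPolynomial.map f (ψ (X i)) := by
  rw [← ba_map, MvPolynomial.map_X]

/-- base change as a homomorphism -/
noncomputable def bm (f : A →+* B) : AM A →* AM B where
  toFun := ba f
  map_one' := am_ext fun i => by
    rw [ba_X]
    exact MvPolynomial.map_X _ _
  map_mul' := fun ψ ψ' => am_ext fun i => by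
    rw [ba_X]
    show MvPolynomial.map f (ψ (ψ' (X i))) = ba f ψ (ba f ψ' (X i))
    rw [ba_X, ba_map]

theorem bm_map (f : A →+* B) (ψ : AM A) (p : Q A) :
    bm f ψ (MvPolynomial.map f p) = MvPolynomial.map f (ψ p) := ba_map f ψ p

theorem bm_X (f : A →+* B) (ψ : AM A) (i : Fin 2) : bm f ψ (X i) = MvPolynomial.map f (ψ (X i)) := ba_X f ψ i

theorem bm_inj (f : A →+* B) (hf : Function.Injective f) : Function.Injective (bm f) := by
  intro ψ ψ' h
  refine am_ext fun i => MvPolynomial.map_injective f hf ?_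
  rw [← bm_X, ← bm_X, h]

/-- the automorphisms which come from `A` -/
theorem bm_rng (f : A →+* B) (hf : Function.Injective f) (g : AM B) (h1 : ∀ i, ∃ p, MvPolynomial.map f p = g (X i))
    (h2 : ∀ i, ∃ p, MvPolynomial.map f p = g⁻¹ (X i)) : ∃ ψ : AM A, bm f ψ = g := by
  choose a ha using h1
  choose b hb using h2
  have hm := MvPolynomial.map_injective (σ := Fin 2) f hf
  let φ : Q A →ₐ[A] Q A := aeval a
  let χ : Q A →ₐ[A] Q A := aeval b
  have hφ : ∀ i, φ (X i) = a i := fun i => aeval_X _ _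
  have hχ : ∀ i, χ (X i) = b i := fun i => aeval_X _ _
  have e1 : bh f φ = (g : Q B →ₐ[B] Q B) := by
    apply MvPolynomial.algHom_ext
    intro i
    rw [bh_X, hφ, ha]
    rfl
  have e2 : bh f χ = ((g⁻¹ : AM B) : Q B →ₐ[B] Q B) := by
    apply MvPolynomial.algHom_ext
    intro i
    rw [bh_X, hχ, hb]
    rfl
  have e3 : ∀ p, g (MvPolynomial.map f p) = MvPolynomial.map f (φ p) := by
    intro p
    rw [← bh_map, e1]
    rfl
  have e4 : ∀ p, g⁻¹ (MvPolynomial.map f p) = MvPolynomial.map f (χ p) := by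
    intro p
    rw [← bh_map, e2]
    rfl
  have h3 : φ.comp χ = AlgHom.id A (Q A) := by
    apply MvPolynomial.algHom_ext
    intro i
    apply hm
    show MvPolynomial.map f (φ (χ (X i))) = MvPolynomial.map f (X i)
    rw [← e3, ← e4]
    exact g.apply_symm_apply _
  have h4 : χ.comp φ = AlgHom.id A (Q A) := by
    apply MvPolynomial.algHom_ext
    intro i
    apply hm
    show MvPolynomial.map f (χ (φ (X i))) = MvPolynomial.map f (X i)
    rw [← e4, ← e3]
    exact g.symm_apply_apply _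
  refine ⟨AlgEquiv.ofAlgHom φ χ h3 h4, am_ext fun i => ?_⟩
  rw [bm_X]
  show MvPolynomial.map f (φ (X i)) = g (X i)
  rw [hφ, ha]

end

end Pool.Agent.H54.PQ
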