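import Pool.Agent.H54.PQ.Ker
import Pool.Agent.H65.NT.Ring

/-!
# From fields of characteristic zero to commutative rings in which all torsion elements are nilpotent
-/

set_option autoImplicit false

namespace Pool.Agent.H54.PQ

open MvPolynomial Pool.Agent.H98.FJ

variable {C : (G : Type) → [Group G] → Prop}

/-- Noetherian rings -/
theorem am_noeth (hC : Inherits C) (hE : Extension C) (hS : ∀ (G : Type) [Group G], Group.IsSolvable G → C G)
    (hF : ∀ (F : Type) [Field F] [CharZero F], C (AM F)) (R : Type) [CommRing R] [IsNoetherianRing R]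
    (ht : ∀ (n : ℤ) (a : R), n ≠ 0 → (n : R) * a = 0 → IsNilpotent a) : C (AM R) := by
  have hfin : (minimalPrimes R).Finite := minimalPrimes.finite_of_isNoetherianRing R
  have hpr : ∀ P : minimalPrimes R, P.1.IsPrime := fun P => P.2.1.1
  have hdom : ∀ P : minimalPrimes R, IsDomain (R ⧸ P.1) := fun P => by
    have := hpr P
    infer_instance
  have hnt : ∀ (P : minimalPrimes R) (n : ℤ), n ≠ 0 → (n : R) ∉ P.1 := by
    intro P n hn hmem
    obtain ⟨y, hy, hx⟩ := Ideal.iUnion_minimalPrimes.subset (Set.mem_biUnion P.2 hmem)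
    obtain ⟨m, hm⟩ := hx
    have h1 : ((n ^ m : ℤ) : R) * y ^ m = 0 := by
      rw [Int.cast_pow, ← mul_pow]
      exact hm
    obtain ⟨k, hk⟩ := ht (n ^ m) (y ^ m) (pow_ne_zero m hn) h1
    exact hy ⟨m * k, by rw [pow_mul]; exact hk⟩
  let K : minimalPrimes R → Type := fun P => FractionRing (R ⧸ P.1)
  let _ : ∀ P, Field (K P) := fun P => inferInstanceAs (Field (FractionRing (R ⧸ P.1)))
  let q : ∀ P : minimalPrimes R, R →+* K P := fun P =>
    (algebraMap (R ⧸ P.1) (FractionRing (R ⧸ P.1))).comp (Ideal.Quotient.mk P.1)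
  have hq : ∀ (P : minimalPrimes R) (x : R), q P x = 0 → x ∈ P.1 := by
    intro P x hx
    have h1 : algebraMap (R ⧸ P.1) (FractionRing (R ⧸ P.1)) (Ideal.Quotient.mk P.1 x) = 0 := hx
    rw [IsFractionRing.to_map_eq_zero_iff] at h1
    exact Ideal.Quotient.eq_zero_iff_mem.mp h1
  have hK : ∀ P, CharZero (K P) := by
    intro P
    refine charZero_of_inj_zero fun n hn => ?_
    by_contra h0
    refine hnt P n (by exact_mod_cast h0) (hq P _ ?_)
    rw [map_intCast]
    exact_mod_cast hn
  let φ : AM R →* ∀ P : minimalPrimes R, AM (K P) :=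
    { toFun := fun g P => bm (q P) g
      map_one' := by
        funext P
        exact map_one _
      map_mul' := fun a b => by
        funext P
        exact map_mul _ a b }
  have hfinite : Finite (minimalPrimes R) := hfin
  refine Pool.Agent.H65.NT.solv_ext hC hE hS φ ?_ (hC.pi _ hfinite _ fun P => hF (K P))
  have hle : φ.ker ≤ Cg (nilradical R) := by
    intro g hg
    refine mem_Cg' fun i => ?_
    rw [MvPolynomial.mem_map_C_iff]
    intro m
    have h1 : ∀ P : minimalPrimes R, coeff m (g (X i) - X i) ∈ P.1 := by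
      intro P
      apply hq P
      have h2 : bm (q P) g = 1 := congrFun hg P
      have h3 : bm (q P) g (X i) = X i := by
        rw [h2]
        rfl
      rw [← MvPolynomial.coeff_map, map_sub, ← bm_X, h3, MvPolynomial.map_X, sub_self, coeff_zero]
    have h4 : nilradical R = sInf (minimalPrimes R) := (Ideal.sInf_minimalPrimes (I := (⊥ : Ideal R))).symm
    rw [h4, Submodule.mem_sInf]
    intro P hP
    exact h1 ⟨P, hP⟩
  have hsol : Group.IsSolvable (Cg (nilradical R)) := cg_solv (IsNoetherianRing.isNilpotent_nilradical R)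
  exact Group.isSolvable_of_isSolvable_injective (Subgroup.inclusion_injective hle)

/-- polynomials with coefficients in a subalgebra -/
theorem exists_sub {R : Type} [CommRing R] (S : Subalgebra ℤ R) (p : Q R) (h : ∀ m, coeff m p ∈ S) :
    ∃ q : Q S, MvPolynomial.map (S.val : S →+* R) q = p := by
  have h0 : p ∈ Set.range (MvPolynomial.map (σ := Fin 2) (S.val : S →+* R)) := by
    rw [MvPolynomial.mem_range_map_iff_coeffs_subset]
    intro c hc
    obtain ⟨e, he, rfl⟩ := MvPolynomial.mem_coeffs_iff.1 hc
    exact ⟨⟨_, h e⟩, rfl⟩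
  exact h0

/-- all commutative rings in which the torsion elements are nilpotent -/
theorem am_ring (hC : Inherits C) (hE : Extension C) (hS : ∀ (G : Type) [Group G], Group.IsSolvable G → C G)
    (hF : ∀ (F : Type) [Field F] [CharZero F], C (AM F)) (R : Type) [CommRing R]
    (ht : ∀ (n : ℤ) (a : R), n ≠ 0 → (n : R) * a = 0 → IsNilpotent a) : C (AM R) := by
  classical
  let A : Finset R → Subalgebra ℤ R := fun s => Algebra.adjoin ℤ (s : Set R)
  have hval : ∀ s, Function.Injective ((A s).val : A s →+* R) := fun s => Subtype.val_injective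
  have hmem : ∀ s (g : AM R), (∀ i m, coeff m (g (X i)) ∈ A s) → (∀ i m, coeff m (g⁻¹ (X i)) ∈ A s) →
      g ∈ (bm ((A s).val : A s →+* R)).range := by
    intro s g h1 h2
    obtain ⟨x, hx⟩ := bm_rng ((A s).val : A s →+* R) (hval s) g (fun i => exists_sub _ _ (h1 i))
      (fun i => exists_sub _ _ (h2 i))
    exact ⟨x, hx⟩
  have hent : ∀ s (x : AM (A s)) (i : Fin 2) m, coeff m (bm ((A s).val : A s →+* R) x (X i)) ∈ A s := by
    intro s x i m
    rw [bm_X, MvPolynomial.coeff_map]
    exact (coeff m (x (X i))).2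
  refine hC.union (ι := Finset R) (fun s => (bm ((A s).val : A s →+* R)).range) ?_ ?_ ?_
  · intro s t hst
    rintro x ⟨y, rfl⟩
    have hAB : A s ≤ A t := Algebra.adjoin_mono (by exact_mod_cast hst)
    refine hmem t _ (fun i m => hAB (hent s y i m)) fun i m => ?_
    rw [← map_inv]
    exact hAB (hent s y⁻¹ i m)
  · intro g
    let co : Q R → Finset R := fun p => p.support.image fun m => coeff m p
    have hco : ∀ (p : Q R) (s : Finset R), co p ⊆ s → ∀ m, coeff m p ∈ A s := by
      intro p s hs m
      by_cases hm : coeff m p = 0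
      · rw [hm]
        exact zero_mem _
      · apply Algebra.subset_adjoin
        exact Finset.mem_coe.2 (hs (Finset.mem_image.2 ⟨m, mem_support_iff.2 hm, rfl⟩))
    refine ⟨(Finset.univ.biUnion fun i : Fin 2 => co (g (X i))) ∪
      (Finset.univ.biUnion fun i : Fin 2 => co (g⁻¹ (X i))), hmem _ g (fun i m => ?_) fun i m => ?_⟩
    · refine hco _ _ ?_ m
      exact (Finset.subset_biUnion_of_mem (fun i : Fin 2 => co (g (X i))) (Finset.mem_univ i)).trans
        Finset.subset_union_left
    · refine hco _ _ ?_ m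
      exact (Finset.subset_biUnion_of_mem (fun i : Fin 2 => co (g⁻¹ (X i))) (Finset.mem_univ i)).trans
        Finset.subset_union_right
  · intro s
    have hft : Algebra.FiniteType ℤ (A s) := (Subalgebra.fg_iff_finiteType _).mp (Subalgebra.fg_adjoin_finset s)
    have hno : IsNoetherianRing (A s) := Algebra.FiniteType.isNoetherianRing ℤ (A s)
    refine hC.iso (AM (A s)) _ (MonoidHom.ofInjective (bm_inj _ (hval s))) (am_noeth hC hE hS hF (A s) ?_)
    intro n a hn ha
    have h1 := congrArg (fun x : A s => (x : R)) ha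
    obtain ⟨k, hk⟩ := ht n a.1 hn (by simpa using h1)
    exact ⟨k, Subtype.ext hk⟩

end Pool.Agent.H54.PQ
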